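import Pool.Agent.Helper81_NJ.Tools

/-!
# Squad NJ, module ST3
-/

set_option autoImplicit false

namespace Pool.Agent.NJ.H31

open Pool.Agent.NJ

/-- **ST3** -/
theorem st3 : ST3Stmt := by
  intro e₂ e₃ d₁ d₂ r s w A B h p _ f₂ g₂ hp2 he₂ hf₂ he₃ hd₂
  have hp : p.Prime := Fact.out
  have hpp := H81.prime_int hp
  have hp0 : (p : ℤ) ≠ 0 := hpp.ne_zero
  have hnu : ¬ IsUnit (p : ℤ) := hpp.not_unit
  obtain ⟨c, hc⟩ := H81.exists_c2 h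
  obtain ⟨g, rfl⟩ := he₃
  have h2 := h.h2
  have hsq := h.sq2
  have hcop := h.cop
  have hns := H81.not_dvd_s h hp
  rw [he₂, hd₂] at h2
  rw [hd₂] at hc hsq
  have hg₂ : ¬ (p : ℤ) ∣ g₂ := by
    rintro ⟨x, rfl⟩
    exact hnu (hsq (p : ℤ) ⟨x, by ring⟩)
  have hr : r = p * (g₂ * B ^ 2 + f₂ * s ^ 2) := by linear_combination h2
  have hs : ¬ (p : ℤ) ∣ s := hns ⟨_, hr⟩
  have hr' : (p : ℤ) ∣ g₂ * B ^ 2 + f₂ * s ^ 2 := by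
    by_contra hr'
    generalize g₂ * B ^ 2 + f₂ * s ^ 2 = r' at hr hr'
    have e1 : c ^ 2 = (p : ℤ) ^ 3 * (g₂ * r' * (r' - p * (g * s ^ 2))) := by
      rw [hc, hr]; ring
    have hcp : (p : ℤ) ∣ c := hpp.dvd_of_dvd_pow (n := 2)
      ⟨(p : ℤ) ^ 2 * (g₂ * r' * (r' - p * (g * s ^ 2))), by rw [e1]; ring⟩
    obtain ⟨c', rfl⟩ := hcp
    have e2 : c' ^ 2 = (p : ℤ) * (g₂ * r' * (r' - p * (g * s ^ 2))) := by
      have : (p : ℤ) ^ 2 * c' ^ 2 = p ^ 2 * (p * (g₂ * r' * (r' - p * (g * s ^ 2)))) := by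
        linear_combination e1
      exact mul_left_cancel₀ (pow_ne_zero 2 hp0) this
    have hcp' : (p : ℤ) ∣ c' := hpp.dvd_of_dvd_pow (n := 2) ⟨_, e2⟩
    obtain ⟨c'', rfl⟩ := hcp'
    have e3 : (p : ℤ) * c'' ^ 2 = g₂ * r' * (r' - p * (g * s ^ 2)) := by
      have : (p : ℤ) * (p * c'' ^ 2) = p * (g₂ * r' * (r' - p * (g * s ^ 2))) := by
        linear_combination e2
      exact mul_left_cancel₀ hp0 this
    have e4 : (p : ℤ) ∣ g₂ * r' * (r' - p * (g * s ^ 2)) := ⟨_, e3.symm⟩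
    rcases hpp.dvd_or_dvd e4 with h5 | h5
    · rcases hpp.dvd_or_dvd h5 with h6 | h6
      · exact hg₂ h6
      · exact hr' h6
    · exact hr' ((dvd_sub_left ⟨g * s ^ 2, rfl⟩).1 h5)
  have hf₂' : ¬ (p : ℤ) ∣ -f₂ := fun h => hf₂ ((dvd_neg).1 h)
  refine H81.leg_eq (B := B) (s := s) hf₂' hs ?_
  have e5 : g₂ * B ^ 2 - -f₂ * s ^ 2 = g₂ * B ^ 2 + f₂ * s ^ 2 := by ring
  rw [e5]
  exact hr'

end Pool.Agent.NJ.H31
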